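import Pool.Agent.Y714.KE.Glue
import Pool.Agent.Y714.KE.Bas

set_option autoImplicit false
set_option linter.unusedSectionVars false
set_option linter.unusedVariables false

/-! Project KE (helper714): good cells, twisted count. -/

namespace Pool.Agent.Y889.KE

open Pool.Agent.Y714.KE
open Pool.Agent.Y714.KF (FI sp ct nm pm ext br gl ubas qf bk el sg bf)
open NumberField FractionalIdeal Module Finset ComplexConjugate MeasureTheory Filter Topology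
open scoped nonZeroDivisors

section

variable {s : Type} [Fintype s] [DecidableEq s] {K : s → Type} [∀ i, Field (K i)]
  [∀ i, NumberField (K i)]

theorem Dm_sub (b : Bs K) (κ : Ux K → ℝ) (i₀ : s) (δ : ℝ) : Dm b κ i₀ δ ⊆ Dc b κ i₀ δ := by
  rintro u ⟨h1, h2, h3, h4, h5, h6, h7, h8⟩
  exact ⟨h1.le, h2.le, h3.le, h4.le, h5, h6.le, fun j => ⟨(h7 j).1.le, (h7 j).2.le⟩,
    fun i hi => ⟨(h8 i hi).1.le, (h8 i hi).2.le⟩⟩

theorem frontier_sub {X : Type} [TopologicalSpace X] {D E : Set X} (hopen : IsOpen D)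
    (h : D ⊆ E) : frontier D ⊆ closure E \ D := by
  rw [hopen.frontier_eq]
  exact Set.sdiff_subset_sdiff_left (closure_mono h)

theorem prod_scale (y : s → ℝ) :
    ∏ k : Ix K ⊕ Ix K, Real.exp (y (cm k)) = tt (K := K) y := by
  have h : ∏ j : Ix K, Real.exp (y j.1) = Real.exp (∑ i, (finrank ℚ (K i) : ℝ) * y i) := by
    rw [Fintype.prod_sigma, Real.exp_sum]
    refine prod_congr rfl fun i _ => ?_
    change ∏ _j : Fin (finrank ℚ (K i)), Real.exp (y i) = _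
    rw [prod_const, card_univ, Fintype.card_fin, ← Real.exp_nat_mul]
  rw [Fintype.prod_sum_type]
  change (∏ j : Ix K, Real.exp (y j.1)) * ∏ j : Ix K, Real.exp (y j.1) = _
  rw [h, tt, ← Real.exp_add]
  congr 1
  ring

theorem tt_pos (y : s → ℝ) : 0 < tt (K := K) y := Real.exp_pos _

theorem card_Ix2 : Fintype.card (Ix K ⊕ Ix K) = 2 * dg K := by
  rw [Fintype.card_sum, Fintype.card_sigma, dg]
  simp only [Fintype.card_fin]
  ring

/-- finitely many integral points in a bounded region -/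
theorem fin_box {ι : Type} [Fintype ι] {D : Set (ι → ℝ)} (hD : Bornology.IsBounded D)
    (Y : ι → ℝ) (hY : ∀ i, 0 < Y i) : {z : ι → ℤ | (fun i => (z i : ℝ) / Y i) ∈ D}.Finite := by
  obtain ⟨R, hR⟩ := (Metric.isBounded_iff_subset_closedBall 0).1 hD
  have hfin2 : {z : ι → ℤ | z ∈ Set.pi Set.univ
      fun i => Set.Icc (-⌈R * Y i⌉) ⌈R * Y i⌉}.Finite :=
    Set.Finite.pi fun _ => Set.finite_Icc _ _
  refine hfin2.subset ?_
  intro z hz
  have h1 := hR hz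
  rw [mem_closedBall_zero_iff] at h1
  simp only [Set.mem_ofPred_eq, Set.mem_pi, Set.mem_univ, true_implies, Set.mem_Icc]
  intro i
  have h2 := (norm_le_pi_norm (fun i => (z i : ℝ) / Y i) i).trans h1
  rw [Real.norm_eq_abs, abs_div, abs_of_pos (hY i), div_le_iff₀ (hY i), abs_le] at h2
  constructor
  · have : (-(⌈R * Y i⌉ : ℤ) : ℝ) ≤ z i := by
      have := Int.le_ceil (R * Y i)
      linarith [h2.1]
    exact_mod_cast this
  · have : (z i : ℝ) ≤ (⌈R * Y i⌉ : ℤ) := h2.2.trans (Int.le_ceil _)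
    exact_mod_cast this

/-- the pair of a point of the region -/
theorem ND_of_scl (b : Bs K) (y : s → ℝ) (z : Ix K ⊕ Ix K → ℤ)
    (h : ∀ e f : Em K, e ≠ f → br (rw2 b (scl y z) e) (rw2 b (scl y z) f) ≠ 0) :
    ND (pr b z) := by
  intro e f hef h0
  apply h e f hef
  rw [rw2_scl]
  unfold br at h0 ⊢
  simp only [Prod.smul_fst, Prod.smul_snd, smul_eq_mul]
  linear_combination ((Real.exp (-(y e.1)) : ℝ) : ℂ) * ((Real.exp (-(y f.1)) : ℝ) : ℂ) * h0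

/-- the archimedean factor of a scaled point -/
theorem psi_scl {ψ : (Em K → ℂ × ℂ) → ℝ} (hψ : RFac ψ) (hn : 2 ≤ dg K) (b : Bs K) (y : s → ℝ)
    (z : Ix K ⊕ Ix K → ℤ) (hz : ND (pr b z)) : ψ (rw2 b (scl y z)) = ψ (vc (pr b z)) := by
  rw [rw2_scl]
  refine hψ.2.2.1 (vc (pr b z)) (SYM_vc _) (hz.pm_pos hn)
    (fun e => ((Real.exp (-(y e.1)) : ℝ) : ℂ)) (fun e => ?_) fun i σ => ?_
  · exact_mod_cast (Real.exp_pos _).ne'
  · exact (Complex.conj_ofReal _).symm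

/-- the archimedean factor depends only on the lattice -/
theorem psi_LT {ψ : (Em K → ℂ × ℂ) → ℝ} (hψ : RFac ψ) (hn : 2 ≤ dg K) {P Q : Al K × Al K}
    (hP : ND P) (h : LT P = LT Q) : ψ (vc Q) = ψ (vc P) := by
  have hPI := hP.ind hn
  obtain ⟨m, n, k, l, hdet, rfl⟩ := LT_eq hPI (IN_congr hPI h) h
  rw [glz_eq, vc_glq]
  have := hψ.2.2.2 (vc P) (SYM_vc P) (hP.pm_pos hn) (m : ℝ) n k l (by
    rcases hdet with h | h
    · have : (m : ℝ) * l - n * k = 1 := by exact_mod_cast congrArg (Int.cast : ℤ → ℝ) h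
      rw [this]; norm_num
    · have : (m : ℝ) * l - n * k = -1 := by exact_mod_cast congrArg (Int.cast : ℤ → ℝ) h
      rw [this]; norm_num)
  rw [← this]
  congr 1

/-- two bases of the same lattice are equivalent -/
theorem Eq2_of_LT (hn : 2 ≤ dg K) {P Q : Al K × Al K} (hP : ND P) (h : LT P = LT Q) :
    Eq2 P Q := by
  have hPI := hP.ind hn
  obtain ⟨m, n, k, l, hdet, rfl⟩ := LT_eq hPI (IN_congr hPI h) h
  refine ⟨1, m, n, k, l, fun _ => one_ne_zero, ?_, ?_⟩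
  · rcases hdet with h | h
    · have : (m : ℚ) * l - n * k = 1 := by exact_mod_cast congrArg (Int.cast : ℤ → ℚ) h
      rw [this]; norm_num
    · have : (m : ℚ) * l - n * k = -1 := by exact_mod_cast congrArg (Int.cast : ℤ → ℚ) h
      rw [this]; norm_num
  · rw [glz_eq]
    simp [sm]

/-- the twisted size depends only on the lattice -/
theorem tw_LT (hodd : Odd (dg K)) (hn : 2 ≤ dg K) {S₀ : Finset ℕ}
    {ψ : (Em K → ℂ × ℂ) → ℝ} {φ : ℕ → Al K × Al K → ℝ} (hψ : RFac ψ)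
    (hφ : ∀ p ∈ S₀, PFac p (φ p)) {P Q : Al K × Al K} (hP : ND P) (h : LT P = LT Q) :
    tw S₀ ψ φ Q = tw S₀ ψ φ P := by
  unfold tw
  rw [(LT_inv hodd hn hP h).2.1, psi_LT hψ hn hP h]
  congr 2
  exact prod_congr rfl fun p hp => (hφ p hp).2.1 P Q hP (Eq2_of_LT hn hP h)

theorem TL_iff (hodd : Odd (dg K)) (hn : 2 ≤ dg K) {S₀ : Finset ℕ}
    {ψ : (Em K → ℂ × ℂ) → ℝ} {φ : ℕ → Al K × Al K → ℝ} (hψ : RFac ψ)
    (hφ : ∀ p ∈ S₀, PFac p (φ p)) {P : Al K × Al K} (hP : ND P) (t : ℝ) :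
    TL S₀ ψ φ t (LT P) ↔ tw S₀ ψ φ P ≤ t := by
  constructor
  · rintro ⟨P', hP', h2⟩
    rw [← tw_LT hodd hn hψ hφ hP hP']
    exact h2
  · exact fun h => ⟨_, rfl, h⟩

/-- the twisted size in scaled coordinates -/
theorem tw_scl (hn : 2 ≤ dg K) {S₀ : Finset ℕ} {ψ : (Em K → ℂ × ℂ) → ℝ}
    {φ : ℕ → Al K × Al K → ℝ} (hψ : RFac ψ) (b : Bs K) (y : s → ℝ) (z : Ix K ⊕ Ix K → ℤ)
    (hz : ND (pr b z)) :
    pm (rw2 b (scl y z)) * ψ (rw2 b (scl y z)) * ∏ p ∈ S₀, φ p (pr b z) =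
      tw S₀ ψ φ (pr b z) / tt (K := K) y := by
  rw [pm_rw2_scl b y z (hz.pm_pos hn), psi_scl hψ hn b y z hz]
  unfold tw
  ring

theorem gcm (h1 : S_RBM K) (h2 : S_MIB) (h3 : S_ETW) (h4 : S_LR K) (h5 : S_OPB K)
    (h6 : S_PAD K) (h7 : S_LEV K) : S_GCM K := by
  classical
  intro hodd hn I b hb κ i₀ hκ S₀ hS₀ ψ hψ φ hφ a ha η hη
  obtain ⟨δ, hδ, hrbm⟩ := h1 hodd (by omega) I b hb κ i₀ hκ (η / 4) (by positivity)
  obtain ⟨L₀, hL₀, hrbm⟩ := hrbm δ hδ le_rfl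
  obtain ⟨C, hC, hT⟩ := h4 hodd hn I b hb
  obtain ⟨T, hT1, hT2⟩ : ∃ T : ∀ p : ℕ, Set (Ix K ⊕ Ix K → ZMod p),
      (∀ p : ℕ, p.Prime → ∀ z : Ix K ⊕ Ix K → ℤ, IN (pr b z) →
        (Loc p (cf I) (LT (pr b z)) ↔ (fun i => (z i : ZMod p)) ∈ T p)) ∧
      ∀ p : ℕ, p.Prime → ((T p)ᶜ.ncard : ℝ) ≤ C * (p : ℝ) ^ (2 * dg K - 2) := by
    have h : ∀ p : ℕ, ∃ T : Set (Ix K ⊕ Ix K → ZMod p), p.Prime →
        (∀ z : Ix K ⊕ Ix K → ℤ, IN (pr b z) →
          (Loc p (cf I) (LT (pr b z)) ↔ (fun i => (z i : ZMod p)) ∈ T)) ∧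
        (Tᶜ.ncard : ℝ) ≤ C * (p : ℝ) ^ (2 * dg K - 2) := by
      intro p
      by_cases hp : p.Prime
      · obtain ⟨T, h⟩ := hT p hp
        exact ⟨T, fun _ => h⟩
      · exact ⟨Set.univ, fun h => absurd h hp⟩
    choose T h using h
    exact ⟨T, fun p hp => (h p hp).1, fun p hp => (h p hp).2⟩
  -- the region
  obtain ⟨hopen, hbdd⟩ := h5 hodd (by omega) b κ i₀ δ hδ
  have hbddm : Bornology.IsBounded (Dm b κ i₀ δ) := hbdd.subset (Dm_sub b κ i₀ δ)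
  have hfr : volume (frontier (Dm b κ i₀ δ)) = 0 :=
    measure_mono_null (frontier_sub hopen (Dm_sub b κ i₀ δ)) (hκ δ hδ)
  have hpmpos : ∀ u ∈ Dm b κ i₀ δ, 0 < pm (rw2 b u) := fun u hu =>
    Pool.Agent.Y714.KF.pm_pos (by rw [card_Em]; omega) hu.2.2.2.2.1
  obtain ⟨hΨc, hΨlev⟩ := h7 hodd (by omega) ψ hψ b
  obtain ⟨⟨mψ, Mψ, hmψ, hbψ⟩, -, -, -⟩ := id hψ
  -- the middle primes
  obtain ⟨C', hC', hmib⟩ := h2 (Ix K ⊕ Ix K) (Dm b κ i₀ δ) C hbddm (by rw [card_Ix2]; omega)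
  have hmib := hmib T (fun p hp => by rw [card_Ix2]; exact hT2 p hp)
  obtain ⟨P₀, hP1, hPS, hP⟩ : ∃ P : ℕ, 1 ≤ P ∧ (∀ p ∈ S₀, p ≤ P) ∧ C' / P ≤ η / 4 := by
    obtain ⟨P, hP⟩ := exists_nat_gt (C' / (η / 4))
    refine ⟨P + 1 + ∑ p ∈ S₀, p, by omega, fun p hp => ?_, ?_⟩
    · have := Finset.single_le_sum (f := fun p : ℕ => p) (fun _ _ => Nat.zero_le _) hp
      omega
    · rw [div_le_iff₀ (by positivity)]
      rw [div_lt_iff₀ (by positivity)] at hP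
      have h0 : (0 : ℝ) ≤ ((∑ p ∈ S₀, p : ℕ) : ℝ) := Nat.cast_nonneg _
      push_cast at h0 ⊢
      nlinarith
  -- the main count
  obtain ⟨ℓ, L, hL, hetw⟩ := h3 (Ix K ⊕ Ix K) (Dm b κ i₀ δ)
    (fun u => pm (rw2 b u) * ψ (rw2 b u)) a
    {Y | ∃ y : s → ℝ, Y = fun k => Real.exp (y (cm k))}
    (fun z => ND (pr b z)) (fun p z => Loc p (cf I) (LT (pr b z))) T S₀
    (fun p z => φ p (pr b z)) hbddm hopen hfr (hΨc.mono fun u hu => hpmpos u hu)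
    (fun u hu => mul_pos (hpmpos u hu)
      (lt_of_lt_of_le hmψ (hbψ (rw2 b u) (SYM_rw2 b u) (hpmpos u hu)).1))
    (fun c hc => measure_mono_null (fun u hu => (⟨hpmpos u hu.1, hu.2⟩ :
      0 < pm (rw2 b u) ∧ pm (rw2 b u) * ψ (rw2 b u) = c)) (hΨlev c hc))
    ha hS₀
    (by
      rintro Y ⟨y, rfl⟩ z hY hz
      exact ND_of_scl b y z hz.2.2.2.2.1)
    (fun p hp z hz => hT1 p hp z (hz.ind (by omega)))
    (fun p hp => by
      obtain ⟨⟨m, M, hm, h⟩, -, -⟩ := hφ p hp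
      exact ⟨m, M, hm, fun z hz => h _ hz⟩)
    (fun p hp ε hε => h6 hodd (by omega) p (hS₀ p hp) (φ p) (hφ p hp) I b hb ε hε)
    P₀ hPS (η / 4) (by positivity)
  refine ⟨ℓ / 2, max (max L L₀) (max (P₀ : ℝ) 1), fun X y hX hy => ?_⟩
  have hXL : L ≤ X := (le_max_left _ _).trans ((le_max_left _ _).trans hX)
  have hXL₀ : L₀ ≤ X := (le_max_right _ _).trans ((le_max_left _ _).trans hX)
  have hXP : (P₀ : ℝ) ≤ X := (le_max_left _ _).trans ((le_max_right _ _).trans hX)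
  have htt := tt_pos (K := K) y
  have hYpos : ∀ k : Ix K ⊕ Ix K, 0 < Real.exp (y (cm k)) := fun _ => Real.exp_pos _
  set A := {M ∈ SY κ i₀ (cf I) y | (∀ p : ℕ, p.Prime → (p : ℝ) ≤ X → Loc p (cf I) M) ∧
      TL S₀ ψ φ (a * tt (K := K) y) M} with hA
  have hr := hrbm y (fun i => hXL₀.trans (hy i))
    (fun M => (∀ p : ℕ, p.Prime → (p : ℝ) ≤ X → Loc p (cf I) M) ∧
      TL S₀ ψ φ (a * tt (K := K) y) M)
  set Z := {z : Ix K ⊕ Ix K → ℤ | scl y z ∈ Dm b κ i₀ δ ∧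
    ((∀ p : ℕ, p.Prime → (p : ℝ) ≤ X → Loc p (cf I) (LT (pr b z))) ∧
      TL S₀ ψ φ (a * tt (K := K) y) (LT (pr b z)))} with hZ
  set E := {z : Ix K ⊕ Ix K → ℤ | scl y z ∈ Dm b κ i₀ δ ∧
    (∀ p : ℕ, p.Prime → p ≤ P₀ → Loc p (cf I) (LT (pr b z))) ∧
      pm (rw2 b (scl y z)) * ψ (rw2 b (scl y z)) * ∏ p ∈ S₀, φ p (pr b z) ≤ a} with hE
  set F := {z : Ix K ⊕ Ix K → ℤ | scl y z ∈ Dm b κ i₀ δ ∧
    ∃ p : ℕ, p.Prime ∧ (P₀ : ℝ) < p ∧ (p : ℝ) ≤ X ∧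
      (fun i => (z i : ZMod p)) ∉ T p} with hF
  have hEE := hetw (fun k => Real.exp (y (cm k))) ⟨y, rfl⟩ (fun k => hXL.trans (hy _))
  have hFF := hmib P₀ X (fun k => Real.exp (y (cm k))) (by exact_mod_cast hP1)
    (fun k => hy _) hYpos
  rw [prod_scale] at hEE hFF
  change |(E.ncard : ℝ) / tt (K := K) y - ℓ| ≤ η / 4 at hEE
  change (F.ncard : ℝ) ≤ C' * tt (K := K) y / P₀ at hFF
  change |2 * (A.ncard : ℝ) - (Z.ncard : ℝ)| ≤ η / 4 * tt (K := K) y at hr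
  have hfin : {z : Ix K ⊕ Ix K → ℤ | scl y z ∈ Dm b κ i₀ δ}.Finite :=
    fin_box hbddm (fun k => Real.exp (y (cm k))) hYpos
  have key : ∀ z : Ix K ⊕ Ix K → ℤ, scl y z ∈ Dm b κ i₀ δ →
      (TL S₀ ψ φ (a * tt (K := K) y) (LT (pr b z)) ↔
        pm (rw2 b (scl y z)) * ψ (rw2 b (scl y z)) * ∏ p ∈ S₀, φ p (pr b z) ≤ a) := by
    intro z hz
    have hnd := ND_of_scl b y z hz.2.2.2.2.1
    rw [TL_iff hodd (by omega) hψ hφ hnd, tw_scl (by omega) hψ b y z hnd, div_le_iff₀ htt]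
  have hZE : Z ⊆ E := by
    rintro z ⟨hz, hl, ht⟩
    exact ⟨hz, fun p hp hpP => hl p hp ((Nat.cast_le.2 hpP).trans hXP), (key z hz).1 ht⟩
  have hEZF : E ⊆ Z ∪ F := by
    rintro z ⟨hz, hl, ht⟩
    have hnd := ND_of_scl b y z hz.2.2.2.2.1
    by_cases h : ∀ p : ℕ, p.Prime → (p : ℝ) ≤ X → Loc p (cf I) (LT (pr b z))
    · exact Or.inl ⟨hz, h, (key z hz).2 ht⟩
    · push Not at h
      obtain ⟨p, hp, hpX, hpl⟩ := h
      refine Or.inr ⟨hz, p, hp, ?_, hpX, fun hc => hpl ((hT1 p hp z (hnd.ind (by omega))).2 hc)⟩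
      by_contra hcon
      exact hpl (hl p hp (by exact_mod_cast not_lt.1 hcon))
  have hle1 : (Z.ncard : ℝ) ≤ E.ncard := by
    exact_mod_cast Set.ncard_le_ncard hZE (hfin.subset fun z hz => hz.1)
  have hle2 : (E.ncard : ℝ) ≤ Z.ncard + F.ncard := by
    have h1 : E.ncard ≤ (Z ∪ F).ncard := Set.ncard_le_ncard hEZF
      (hfin.subset (by rintro z (h | h) <;> exact h.1))
    exact_mod_cast h1.trans (Set.ncard_union_le _ _)
  have hF2 : (F.ncard : ℝ) ≤ η / 4 * tt (K := K) y := by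
    refine hFF.trans ?_
    rw [mul_div_right_comm]
    gcongr
  have h3' : |(E.ncard : ℝ) - ℓ * tt (K := K) y| ≤ η / 4 * tt (K := K) y := by
    have e : (E.ncard : ℝ) - ℓ * tt (K := K) y =
        ((E.ncard : ℝ) / tt (K := K) y - ℓ) * tt (K := K) y := by
      field_simp
    rw [e, abs_mul, abs_of_pos htt]
    gcongr
  have h4' : |(A.ncard : ℝ) - ℓ / 2 * tt (K := K) y| ≤ η * tt (K := K) y := by
    have hη' : 0 < η * tt (K := K) y := by positivity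
    rw [abs_le] at h3' hr ⊢
    obtain ⟨h31, h32⟩ := h3'
    obtain ⟨hr1, hr2⟩ := hr
    constructor
    · linarith
    · linarith
  have e5 : (A.ncard : ℝ) / tt (K := K) y - ℓ / 2 =
      ((A.ncard : ℝ) - ℓ / 2 * tt (K := K) y) / tt (K := K) y := by
    field_simp
  rw [e5, abs_div, abs_of_pos htt, div_le_iff₀ htt]
  exact h4'

end

end Pool.Agent.Y889.KE
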